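import Pool.Agent.Lib.MP_403d16_lc.Complete

/-! Heyting arithmetic is (strongly) complete for its locally `PA` Kripke models. -/

namespace Pool.Agent.Results.MP_403d16_lc.LocallyPAComplete

open Pool.Agent.Lib.MP_403d16_lc

/-- For every set `Γ` of formulas and every formula `φ` of the language of arithmetic: `φ` is
provable in Heyting arithmetic from `Γ` if and only if, in every Kripke model of `HA` that is
locally `PA`, every node (with every assignment) that forces `Γ` forces `φ`. In particular, for
`Γ = ∅`, every sentence not provable in `HA` fails in some locally `PA` Kripke model of `HA`. -/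
theorem result (Γ : Set Fm) (φ : Fm) :
    HA Γ φ ↔ ∀ K : KripkeModel, K.IsHA → K.LocallyPA →
      ∀ (k : K.Node) (e : ℕ → K.dom k), (∀ ψ ∈ Γ, K.Forces ψ k e) → K.Forces φ k e := by
  constructor
  · intro h K hK _ k e hΓ
    exact K.sound h hK k e hΓ
  · intro h
    by_contra hn
    obtain ⟨P, e, h1, h2⟩ := exists_counter Γ φ hn
    exact h2 (h canon canon_isHA canon_locallyPA P e h1)

end Pool.Agent.Results.MP_403d16_lc.LocallyPAComplete
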